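import Pool.Agent.W47.LC.EBound
import Mathlib

/-!
# Near relations between `1`, `e` and an arbitrary real number: basic inequalities
-/

set_option autoImplicit false

namespace Pool.Agent.Q252.EN

open Real

/-- The height of an integer vector `(x, y, z)`. -/
def ht (v : Fin 3 → ℤ) : ℕ := max (v 0).natAbs (max (v 1).natAbs (v 2).natAbs)

/-- The linear form `x + y e + z t`. -/
noncomputable def L (t : ℝ) (v : Fin 3 → ℤ) : ℝ := v 0 + v 1 * exp 1 + v 2 * t

/-- the vector product -/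
def nr (u v : Fin 3 → ℤ) : Fin 3 → ℤ :=
  ![u 1 * v 2 - u 2 * v 1, u 2 * v 0 - u 0 * v 2, u 0 * v 1 - u 1 * v 0]

/-- size of the vector product with `(1, e, t)` -/
noncomputable def S (t : ℝ) (n : Fin 3 → ℤ) : ℝ :=
  |(n 0 : ℝ) * exp 1 - n 1| + |(n 2 : ℝ) - t * n 0|

lemma abs_le_ht (v : Fin 3 → ℤ) (i : Fin 3) : |(v i : ℝ)| ≤ ht v := by
  have h : (v i).natAbs ≤ ht v := by
    unfold ht
    fin_cases i <;> simp
  calc |(v i : ℝ)| = ((v i).natAbs : ℝ) := by rw [Nat.cast_natAbs]; simp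
    _ ≤ ht v := by exact_mod_cast h

lemma ht_le {v : Fin 3 → ℤ} {N : ℕ} (h : ∀ i, |v i| ≤ N) : ht v ≤ N := by
  unfold ht
  have h0 := abs_le.1 (h 0)
  have h1 := abs_le.1 (h 1)
  have h2 := abs_le.1 (h 2)
  omega

lemma ht_pos {v : Fin 3 → ℤ} (h : v ≠ 0) : 1 ≤ ht v := by
  by_contra h0
  apply h
  unfold ht at h0
  funext i
  fin_cases i <;> simp <;> omega

lemma S_nonneg (t : ℝ) (n : Fin 3 → ℤ) : 0 ≤ S t n := by unfold S; positivity

/-- the measure of irrationality of `e` -/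
lemma S_lower (t : ℝ) (n : Fin 3 → ℤ) (hn : n ≠ 0) (M : ℝ) (hM1 : 1 ≤ M)
    (hM : ∀ j, |(n j : ℝ)| ≤ M) : 1 / (1000 * M * (1 + log M)) ≤ S t n := by
  have hl : 0 ≤ log M := log_nonneg hM1
  have hD : 1 ≤ 1000 * M * (1 + log M) := by nlinarith
  have hD1 : 1 / (1000 * M * (1 + log M)) ≤ 1 := by
    rw [div_le_one (by linarith)]; exact hD
  have ha := abs_nonneg ((n 0 : ℝ) * exp 1 - n 1)
  have hb := abs_nonneg ((n 2 : ℝ) - t * n 0)
  unfold S
  by_cases h0 : n 0 = 0
  · by_cases h1 : n 1 = 0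
    · have h2 : n 2 ≠ 0 := by
        intro h2
        apply hn
        funext i
        fin_cases i <;> simp [h0, h1, h2]
      have h3 : (1 : ℝ) ≤ |(n 2 : ℝ)| := by exact_mod_cast Int.one_le_abs h2
      rw [h0] at hb ⊢
      simp only [Int.cast_zero, mul_zero, sub_zero, zero_mul, zero_sub] at hb ⊢
      have := abs_nonneg (-(n 1 : ℝ))
      linarith
    · have h3 : (1 : ℝ) ≤ |(n 1 : ℝ)| := by exact_mod_cast Int.one_le_abs h1
      rw [h0] at hb ⊢
      simp only [Int.cast_zero, mul_zero, sub_zero, zero_mul, zero_sub, abs_neg] at hb ⊢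
      have := abs_nonneg (n 2 : ℝ)
      linarith
  · obtain ⟨q, hq⟩ : ∃ q : ℕ, q = (n 0).natAbs := ⟨_, rfl⟩
    have hq1 : 1 ≤ q := by omega
    have hqR : (1 : ℝ) ≤ q := by exact_mod_cast hq1
    have hqM : (q : ℝ) ≤ M := by
      have := hM 0
      rw [hq, Nat.cast_natAbs]
      simpa using this
    obtain ⟨p, hp⟩ : ∃ p : ℤ, |(q : ℝ) * exp 1 - p| = |(n 0 : ℝ) * exp 1 - n 1| := by
      rcases Int.natAbs_eq (n 0) with h | h
      · refine ⟨n 1, ?_⟩
        have : (n 0 : ℝ) = q := by rw [h, ← hq]; simp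
        rw [this]
      · refine ⟨-n 1, ?_⟩
        have : (n 0 : ℝ) = -q := by rw [h, ← hq]; simp
        rw [this, ← abs_neg]
        congr 1
        push_cast
        ring
    have h1 := Pool.Agent.W47.LC.eBound q hq1 p
    rw [pow_one, hp] at h1
    have h2 : (q : ℝ) * (1 + log q) ≤ M * (1 + log M) := by
      have h3 := log_le_log (by linarith) hqM
      have h4 := log_nonneg hqR
      exact mul_le_mul hqM (by linarith) (by linarith) (by linarith)
    have h3 : 1 / 1000 ≤ M * (1 + log M) * |(n 0 : ℝ) * exp 1 - n 1| :=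
      h1.trans (mul_le_mul_of_nonneg_right h2 ha)
    have h4 : 1 / (1000 * M * (1 + log M)) ≤ |(n 0 : ℝ) * exp 1 - n 1| := by
      rw [div_le_iff₀ (by linarith)]
      linarith
    linarith

lemma S_nr (t : ℝ) (u v : Fin 3 → ℤ) :
    S t (nr u v) ≤ 2 * (ht v * |L t u| + ht u * |L t v|) := by
  have e1 : ((nr u v 0 : ℤ) : ℝ) * exp 1 - (nr u v 1 : ℤ) = v 2 * L t u - u 2 * L t v := by
    simp only [nr, L, Matrix.cons_val_zero, Matrix.cons_val_one]
    push_cast
    ring
  have e2 : ((nr u v 2 : ℤ) : ℝ) - t * (nr u v 0 : ℤ) = v 1 * L t u - u 1 * L t v := by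
    simp only [nr, L, Matrix.cons_val_zero, Matrix.cons_val]
    push_cast
    ring
  have h1 : ∀ i : Fin 3, |(v i : ℝ) * L t u - u i * L t v| ≤ ht v * |L t u| + ht u * |L t v| := by
    intro i
    refine (abs_sub _ _).trans ?_
    rw [abs_mul, abs_mul]
    exact add_le_add (mul_le_mul_of_nonneg_right (abs_le_ht v i) (abs_nonneg _))
      (mul_le_mul_of_nonneg_right (abs_le_ht u i) (abs_nonneg _))
  unfold S
  rw [e1, e2]
  linarith [h1 1, h1 2]

lemma nr_le (u v : Fin 3 → ℤ) (j : Fin 3) : |((nr u v j : ℤ) : ℝ)| ≤ 2 * (ht u * ht v) := by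
  have h : ∀ i k : Fin 3, |(u i : ℝ) * v k - u k * v i| ≤ 2 * (ht u * ht v) := by
    intro i k
    refine (abs_sub _ _).trans ?_
    rw [abs_mul, abs_mul]
    have h1 := mul_le_mul (abs_le_ht u i) (abs_le_ht v k) (abs_nonneg _) (by positivity)
    have h2 := mul_le_mul (abs_le_ht u k) (abs_le_ht v i) (abs_nonneg _) (by positivity)
    linarith
  have h0 := h 1 2
  have h1 := h 2 0
  have h2 := h 0 1
  fin_cases j
  · simpa [nr] using h0
  · simpa [nr] using h1
  · simpa [nr] using h2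

lemma nr_zero_left (v : Fin 3 → ℤ) : nr 0 v = 0 := by
  funext i; fin_cases i <;> simp [nr]

lemma nr_zero_right (u : Fin 3 → ℤ) : nr u 0 = 0 := by
  funext i; fin_cases i <;> simp [nr]

lemma nr_ne {u v : Fin 3 → ℤ} (h : nr u v ≠ 0) : u ≠ 0 ∧ v ≠ 0 := by
  constructor
  · rintro rfl; exact h (nr_zero_left v)
  · rintro rfl; exact h (nr_zero_right u)

/-- the product inequality, first form -/
lemma core (t : ℝ) (u v : Fin 3 → ℤ) (h : nr u v ≠ 0) :
    1 / (4000 * (ht u * ht v) * (1 + log (2 * (ht u * ht v)))) ≤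
      ht v * |L t u| + ht u * |L t v| := by
  obtain ⟨hu, hv⟩ := nr_ne h
  have hu1 : (1 : ℝ) ≤ ht u := by exact_mod_cast ht_pos hu
  have hv1 : (1 : ℝ) ≤ ht v := by exact_mod_cast ht_pos hv
  have hP : (1 : ℝ) ≤ ht u * ht v := by nlinarith
  have h1 := S_lower t (nr u v) h (2 * (ht u * ht v)) (by linarith) (nr_le u v)
  have h2 := S_nr t u v
  have e : 1 / (4000 * (ht u * ht v : ℝ) * (1 + log (2 * (ht u * ht v)))) =
      1 / 2 * (1 / (1000 * (2 * (ht u * ht v)) * (1 + log (2 * (ht u * ht v))))) := by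
    have hl : 0 ≤ log (2 * (ht u * ht v : ℝ)) := log_nonneg (by linarith)
    field_simp
    ring
  rw [e]
  linarith

lemma L_vec (t : ℝ) (u v : Fin 3 → ℤ) (h : nr u v = 0) (i : Fin 3) :
    (v i : ℝ) * L t u = u i * L t v := by
  have h0 := congrFun h 0
  have h1 := congrFun h 1
  have h2 := congrFun h 2
  simp only [nr, Matrix.cons_val_zero, Matrix.cons_val_one, Matrix.cons_val, Pi.zero_apply]
    at h0 h1 h2
  have g0 : (u 1 : ℝ) * v 2 - u 2 * v 1 = 0 := by exact_mod_cast h0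
  have g1 : (u 2 : ℝ) * v 0 - u 0 * v 2 = 0 := by exact_mod_cast h1
  have g2 : (u 0 : ℝ) * v 1 - u 1 * v 0 = 0 := by exact_mod_cast h2
  unfold L
  fin_cases i
  · show (v 0 : ℝ) * _ = u 0 * _
    linear_combination t * g1 - exp 1 * g2
  · show (v 1 : ℝ) * _ = u 1 * _
    linear_combination g2 - t * g0
  · show (v 2 : ℝ) * _ = u 2 * _
    linear_combination exp 1 * g0 - g1

/-- vectors of increasing height and strictly decreasing values are independent -/
lemma nr_ne_of_lt (t : ℝ) (u v : Fin 3 → ℤ) (hh : ht u < ht v) (hL : |L t v| < |L t u|) :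
    nr u v ≠ 0 := by
  intro h
  have h0 : 0 < |L t u| := (abs_nonneg _).trans_lt hL
  -- a coordinate of `v` with the height
  obtain ⟨i, hi⟩ : ∃ i : Fin 3, (v i).natAbs = ht v := by
    unfold ht
    rcases le_total (v 0).natAbs (max (v 1).natAbs (v 2).natAbs) with h | h
    · rcases le_total (v 1).natAbs (v 2).natAbs with h' | h'
      · exact ⟨2, by rw [max_eq_right h, max_eq_right h']⟩
      · exact ⟨1, by rw [max_eq_right h, max_eq_left h']⟩
    · exact ⟨0, by rw [max_eq_left h]⟩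
  have h1 := L_vec t u v h i
  have h2 : |(v i : ℝ)| * |L t u| = |(u i : ℝ)| * |L t v| := by rw [← abs_mul, h1, abs_mul]
  have h3 : |(v i : ℝ)| = ht v := by
    rw [← hi, Nat.cast_natAbs]; simp
  have h4 := abs_le_ht u i
  have h5 : (ht u : ℝ) < ht v := by exact_mod_cast hh
  rw [h3] at h2
  have h6 : |(u i : ℝ)| * |L t v| ≤ ht u * |L t u| :=
    mul_le_mul h4 hL.le (abs_nonneg _) (by positivity)
  nlinarith

/-- the determinant -/
def dt (a b c : Fin 3 → ℤ) : ℤ :=
  a 0 * (b 1 * c 2 - b 2 * c 1) - b 0 * (a 1 * c 2 - a 2 * c 1) + c 0 * (a 1 * b 2 - a 2 * b 1)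

lemma dt_eq (t : ℝ) (a b c : Fin 3 → ℤ) : (dt a b c : ℝ) =
    L t a * (b 1 * c 2 - b 2 * c 1) - L t b * (a 1 * c 2 - a 2 * c 1)
      + L t c * (a 1 * b 2 - a 2 * b 1) := by
  unfold dt L
  push_cast
  ring

lemma dt_le (t : ℝ) (a b c : Fin 3 → ℤ) (hab : ht a ≤ ht b) (hbc : ht b ≤ ht c)
    (h1 : |L t b| ≤ |L t a|) (h2 : |L t c| ≤ |L t b|) :
    |(dt a b c : ℝ)| ≤ 6 * (|L t a| * (ht b * ht c)) := by
  have hab' : (ht a : ℝ) ≤ ht b := by exact_mod_cast hab
  have hbc' : (ht b : ℝ) ≤ ht c := by exact_mod_cast hbc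
  have h : ∀ (x y : Fin 3 → ℤ) (i k : Fin 3), |(x i : ℝ) * y k - x k * y i| ≤
      2 * (ht x * ht y) := by
    intro x y i k
    refine (abs_sub _ _).trans ?_
    rw [abs_mul, abs_mul]
    have h1 := mul_le_mul (abs_le_ht x i) (abs_le_ht y k) (abs_nonneg _) (by positivity)
    have h2 := mul_le_mul (abs_le_ht x k) (abs_le_ht y i) (abs_nonneg _) (by positivity)
    linarith
  rw [dt_eq t]
  have e1 := mul_le_mul_of_nonneg_left (h b c 1 2) (abs_nonneg (L t a))
  have e2 : |L t b| * |(a 1 : ℝ) * c 2 - a 2 * c 1| ≤ |L t a| * (2 * (ht b * ht c)) := by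
    refine mul_le_mul h1 ((h a c 1 2).trans ?_) (abs_nonneg _) (abs_nonneg _)
    have := mul_le_mul_of_nonneg_right hab' (Nat.cast_nonneg (α := ℝ) (ht c))
    linarith
  have e3 : |L t c| * |(a 1 : ℝ) * b 2 - a 2 * b 1| ≤ |L t a| * (2 * (ht b * ht c)) := by
    refine mul_le_mul (h2.trans h1) ((h a b 1 2).trans ?_) (abs_nonneg _) (abs_nonneg _)
    have h3 := mul_le_mul hab' hbc' (by positivity) (by positivity)
    linarith
  rw [← abs_mul] at e1 e2 e3
  have f1 := abs_sub (L t a * ((b 1 : ℝ) * c 2 - b 2 * c 1))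
    (L t b * ((a 1 : ℝ) * c 2 - a 2 * c 1))
  have f2 := abs_add_le (L t a * ((b 1 : ℝ) * c 2 - b 2 * c 1) -
    L t b * ((a 1 : ℝ) * c 2 - a 2 * c 1)) (L t c * ((a 1 : ℝ) * b 2 - a 2 * b 1))
  linarith

/-- parallel vectors -/
def Par (n m : Fin 3 → ℤ) : Prop := ∀ i j, n i * m j = n j * m i

lemma Par.refl (n : Fin 3 → ℤ) : Par n n := fun _ _ => mul_comm _ _

lemma Par.trans {n m k : Fin 3 → ℤ} (h1 : Par n m) (h2 : Par m k) (hm : m ≠ 0) : Par n k := by
  obtain ⟨s, hs⟩ : ∃ s, m s ≠ 0 := by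
    by_contra h
    push Not at h
    exact hm (funext h)
  intro i j
  have a1 := h1 i s
  have a2 := h1 j s
  have b1 := h2 s j
  have b2 := h2 s i
  have : m s * m s * (n i * k j - n j * k i) = 0 := by
    linear_combination (m s * k j) * a1 - (m s * k i) * a2 + (n s * m i) * b1 - (n s * m j) * b2
  rcases mul_eq_zero.1 this with h | h
  · exact absurd h (mul_ne_zero hs hs)
  · linarith

/-- `det (a, b, c) = 0` implies that the two vector products are parallel -/
lemma par_of_dt {a b c : Fin 3 → ℤ} (h : dt a b c = 0) : Par (nr b c) (nr a b) := by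
  unfold dt at h
  intro i j
  fin_cases i <;> fin_cases j <;>
    simp only [nr, Fin.zero_eta, Fin.mk_one, Fin.reduceFinMk, Matrix.cons_val_zero,
      Matrix.cons_val_one, Matrix.cons_val]
  · linear_combination (-b 2) * h
  · linear_combination (b 1) * h
  · linear_combination (b 2) * h
  · linear_combination (-b 0) * h
  · linear_combination (-b 1) * h
  · linear_combination (b 0) * h

lemma S_par (t : ℝ) {n m : Fin 3 → ℤ} (h : Par n m) (hn : n ≠ 0) (hm : m ≠ 0) (M : ℝ)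
    (hM : ∀ j, |(m j : ℝ)| ≤ M) : S t m ≤ M * S t n := by
  obtain ⟨s, hs⟩ : ∃ s, m s ≠ 0 := by
    by_contra h
    push Not at h
    exact hm (funext h)
  have hns : n s ≠ 0 := by
    intro h0
    apply hn
    funext i
    have := h i s
    rw [h0, zero_mul] at this
    rcases mul_eq_zero.1 this with h1 | h1
    · exact h1
    · exact absurd h1 hs
  have h1 : ∀ i, (m s : ℝ) * n i = n s * m i := fun i => by
    have := h i s
    have h2 : (n i : ℝ) * m s = n s * m i := by exact_mod_cast this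
    linarith
  have h2 : |(m s : ℝ)| * S t n = |(n s : ℝ)| * S t m := by
    unfold S
    rw [mul_add, mul_add, ← abs_mul, ← abs_mul, ← abs_mul, ← abs_mul]
    congr 2
    · have a := h1 0
      have b := h1 1
      linear_combination (exp 1) * a - b
    · have a := h1 0
      have b := h1 2
      linear_combination b - t * a
  have h3 : (1 : ℝ) ≤ |(n s : ℝ)| := by exact_mod_cast Int.one_le_abs hns
  have h4 := S_nonneg t m
  have h5 := S_nonneg t n
  calc S t m ≤ |(n s : ℝ)| * S t m := by nlinarith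
    _ = |(m s : ℝ)| * S t n := h2.symm
    _ ≤ M * S t n := mul_le_mul_of_nonneg_right (hM s) h5

end Pool.Agent.Q252.EN
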