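import Pool.Agent.Q252.EN.Window
import Pool.Agent.TH550.NRZ.Unif
import Pool.Agent.W472.AC.EMeas2

/-!
# Criterion, sharpness, counting
-/

set_option autoImplicit false

namespace Pool.Agent.Q252.EN

open Real

lemma nr_ne_of_li {u v : Fin 3 → ℤ} (h : LinearIndependent ℤ ![u, v]) : nr u v ≠ 0 := by
  rw [LinearIndependent.pair_iff] at h
  intro h0
  have hu : u ≠ 0 := by
    rintro rfl
    have := h 1 0 (by simp)
    simp at this
  obtain ⟨i, hi⟩ : ∃ i, u i ≠ 0 := by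
    by_contra hh
    push Not at hh
    exact hu (funext hh)
  have g0 := congrFun h0 0
  have g1 := congrFun h0 1
  have g2 := congrFun h0 2
  simp only [nr, Matrix.cons_val_zero, Matrix.cons_val_one, Matrix.cons_val, Pi.zero_apply]
    at g0 g1 g2
  have h1 : (v i) • u + (-(u i)) • v = 0 := by
    funext j
    simp only [Pi.add_apply, Pi.smul_apply, smul_eq_mul, Pi.zero_apply]
    fin_cases i <;> fin_cases j <;>
      simp only [Fin.zero_eta, Fin.mk_one, Fin.reduceFinMk] <;> linarith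
  have := (h _ _ h1).2
  exact hi (by omega)

/-- the product inequality -/
theorem product (t : ℝ) (u v : Fin 3 → ℤ) (h : LinearIndependent ℤ ![u, v]) :
    1 / (4000 * (ht u * ht v) ^ 2 * (1 + log (2 * (ht u * ht v)))) ≤
      |L t u| / ht u + |L t v| / ht v := by
  have hn := nr_ne_of_li h
  obtain ⟨hu, hv⟩ := nr_ne hn
  have hu1 : (1 : ℝ) ≤ ht u := by exact_mod_cast ht_pos hu
  have hv1 : (1 : ℝ) ≤ ht v := by exact_mod_cast ht_pos hv
  have h1 := core t u v hn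
  have hP : (1 : ℝ) ≤ ht u * ht v := by nlinarith
  have hl : 0 ≤ log (2 * (ht u * ht v : ℝ)) := log_nonneg (by linarith)
  have e1 : |L t u| / ht u + |L t v| / ht v =
      (ht v * |L t u| + ht u * |L t v|) / (ht u * ht v) := by
    field_simp
  have e2 : 1 / (4000 * (ht u * ht v : ℝ) ^ 2 * (1 + log (2 * (ht u * ht v)))) =
      1 / (4000 * (ht u * ht v) * (1 + log (2 * (ht u * ht v)))) / (ht u * ht v) := by
    field_simp
  rw [e1, e2]
  exact div_le_div_of_nonneg_right h1 (by linarith)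

/-- sharpness of the exponents -/
theorem sharp (m : ℕ) (hm : 2 ≤ m) : ∃ (t : ℝ) (u v : Fin 3 → ℤ),
    LinearIndependent ℤ ![u, v] ∧ ht u ≤ 2 * m ∧ ht v ≤ 2 * m ∧ L t u = 0 ∧
      |L t v| ≤ 4 / (m : ℝ) ^ 3 := by
  have hn0 : 0 < m * m / 4 := Nat.div_pos (by nlinarith) (by norm_num)
  obtain ⟨j, k, hk0, hkn, hjk⟩ := Real.exists_int_int_abs_mul_sub_le (exp 1) hn0
  have hm' : (2 : ℤ) ≤ m := by exact_mod_cast hm
  have hmR : (2 : ℝ) ≤ m := by exact_mod_cast hm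
  have hk4 : 4 * k ≤ (m : ℤ) * m := by
    have h1 : k ≤ (((m * m) / 4 : ℕ) : ℤ) := hkn
    have h2 : (((m * m) / 4 : ℕ) : ℤ) = ((m : ℤ) * m) / 4 := by push_cast; rfl
    rw [h2] at h1
    omega
  have hn4 : 1 / ((((m * m) / 4 : ℕ) : ℝ) + 1) ≤ 4 / (m : ℝ) ^ 2 := by
    have h1 : m * m < 4 * (m * m / 4 + 1) := by omega
    have h2 : (m : ℝ) * m < 4 * ((((m * m) / 4 : ℕ) : ℝ) + 1) := by exact_mod_cast h1
    rw [div_le_div_iff₀ (by positivity) (by positivity)]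
    nlinarith
  have hd := hjk.trans hn4
  -- bounds for `j`
  have he1 := exp_one_lt_d9
  have he2 := exp_one_gt_d9
  have hkR : (1 : ℝ) ≤ k := by exact_mod_cast hk0
  have hk4R : 4 * (k : ℝ) ≤ m * m := by exact_mod_cast hk4
  have h4m : 4 / (m : ℝ) ^ 2 ≤ 1 := by
    rw [div_le_one (by positivity)]
    nlinarith
  have hj0 : 0 ≤ j := by
    have h1 := (abs_le.1 hd).2
    have h2 : (0 : ℝ) < j + 1 := by nlinarith
    have h3 : (0 : ℤ) < j + 1 := by exact_mod_cast h2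
    omega
  have hj1 : 4 * j ≤ 3 * ((m : ℤ) * m) + 4 := by
    have h1 := (abs_le.1 hd).1
    have h2 : 4 * (j : ℝ) ≤ 3 * (m * m) + 4 := by nlinarith
    exact_mod_cast h2
  obtain ⟨M, hM⟩ : ∃ M : ℤ, M = m := ⟨_, rfl⟩
  rw [← hM] at hm' hk4 hj1
  have hM0 : 0 < M := by linarith
  -- the vectors
  obtain ⟨y1, hy1⟩ : ∃ y : ℤ, y = k % M := ⟨_, rfl⟩
  obtain ⟨y2, hy2⟩ : ∃ y : ℤ, y = k % M - k / M := ⟨_, rfl⟩
  obtain ⟨x1, hx1⟩ : ∃ y : ℤ, y = (-j) % M := ⟨_, rfl⟩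
  obtain ⟨x2, hx2⟩ : ∃ y : ℤ, y = (-j) % M - (-j) / M := ⟨_, rfl⟩
  have ey : (M + 1) * y1 - M * y2 = k := by
    rw [hy1, hy2]
    have := Int.emod_add_mul_ediv k M
    linarith
  have ex : (M + 1) * x1 - M * x2 = -j := by
    rw [hx1, hx2]
    have := Int.emod_add_mul_ediv (-j) M
    linarith
  have by1 : 0 ≤ y1 ∧ y1 < M := by
    rw [hy1]; exact ⟨Int.emod_nonneg _ hM0.ne', Int.emod_lt_of_pos _ hM0⟩
  have bx1 : 0 ≤ x1 ∧ x1 < M := by
    rw [hx1]; exact ⟨Int.emod_nonneg _ hM0.ne', Int.emod_lt_of_pos _ hM0⟩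
  have by2 : |y2| ≤ 2 * M := by
    rw [abs_le]
    constructor <;> nlinarith
  have bx2 : |x2| ≤ 2 * M := by
    rw [abs_le]
    constructor <;> nlinarith
  have hmR0 : (m : ℝ) ≠ 0 := by positivity
  have hMR : (M : ℝ) = m := by rw [hM]; simp
  obtain ⟨t, htt⟩ : ∃ t : ℝ, t = -((x1 : ℝ) + y1 * exp 1) / m := ⟨_, rfl⟩
  refine ⟨t, ![x1, y1, M], ![x2, y2, M + 1], ?_, ?_, ?_, ?_, ?_⟩
  · rw [LinearIndependent.pair_iff]
    intro s s' h
    have h1 := congrFun h 1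
    have h2 := congrFun h 2
    simp only [Pi.add_apply, Pi.smul_apply, smul_eq_mul, Pi.zero_apply, Matrix.cons_val_one,
      Matrix.cons_val] at h1 h2
    have h3 : s' * k = 0 := by
      rw [← ey]
      linear_combination y1 * h2 - M * h1
    have hs' : s' = 0 := by
      rcases mul_eq_zero.1 h3 with h | h
      · exact h
      · omega
    rw [hs', zero_mul, add_zero] at h2
    rcases mul_eq_zero.1 h2 with h | h
    · exact ⟨h, hs'⟩
    · omega
  · refine ht_le fun i => ?_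
    push_cast
    rw [← hM]
    fin_cases i
    · show |x1| ≤ 2 * M
      rw [abs_of_nonneg bx1.1]; linarith
    · show |y1| ≤ 2 * M
      rw [abs_of_nonneg by1.1]; linarith
    · show |M| ≤ 2 * M
      rw [abs_of_nonneg hM0.le]; linarith
  · refine ht_le fun i => ?_
    push_cast
    rw [← hM]
    fin_cases i
    · exact bx2
    · exact by2
    · show |M + 1| ≤ 2 * M
      rw [abs_of_nonneg (by linarith)]; linarith
  · simp only [L, Matrix.cons_val_zero, Matrix.cons_val_one, Matrix.cons_val]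
    rw [htt, hMR]
    field_simp
    ring
  · have e : L t ![x2, y2, M + 1] = -((k : ℝ) * exp 1 - j) / m := by
      have ey' : ((M : ℝ) + 1) * y1 - M * y2 = k := by exact_mod_cast ey
      have ex' : ((M : ℝ) + 1) * x1 - M * x2 = -j := by exact_mod_cast ex
      simp only [L, Matrix.cons_val_zero, Matrix.cons_val_one, Matrix.cons_val]
      push_cast
      rw [htt, hMR]
      rw [hMR] at ey' ex'
      field_simp
      linear_combination -ex' - exp 1 * ey'
    rw [e, abs_div, abs_neg, Nat.abs_cast]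
    calc |(k : ℝ) * exp 1 - j| / m ≤ 4 / (m : ℝ) ^ 2 / m :=
          div_le_div_of_nonneg_right hd (by positivity)
      _ = 4 / (m : ℝ) ^ 3 := by field_simp

/-- **Criterion for linear independence.** -/
theorem crit (γ : ℝ) (hγ : (3 + √5) / 2 < γ) (t : ℝ) :
    LinearIndependent ℚ ![(1 : ℝ), exp 1, t] ↔
      ∀ X0 : ℝ, ∃ X : ℝ, X0 ≤ X ∧ ∀ v : Fin 3 → ℤ, v ≠ 0 → (ht v : ℝ) ≤ X →
        X ^ (-γ) < |L t v| := by
  have h5 : √5 * √5 = 5 := mul_self_sqrt (by norm_num)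
  have h50 : 0 ≤ √5 := sqrt_nonneg 5
  have h51 : 2 < √5 := by nlinarith
  have hγ2 : 2 < γ := by linarith
  have hL : ∀ v : Fin 3 → ℤ, ∑ i, v i • (![(1 : ℝ), exp 1, t] i) = L t v := by
    intro v
    rw [Fin.sum_univ_three]
    simp [L, zsmul_eq_mul]
  rw [← LinearIndependent.iff_fractionRing ℤ ℚ, Fintype.linearIndependent_iff]
  constructor
  · intro hli X0
    by_contra hcon
    push Not at hcon
    obtain ⟨K, hK1, hK⟩ := window γ hγ
    obtain ⟨Y, hY⟩ : ∃ Y : ℝ, Y = max K X0 := ⟨_, rfl⟩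
    have hKY : K ≤ Y := by rw [hY]; exact le_max_left _ _
    have hXY : X0 ≤ Y := by rw [hY]; exact le_max_right _ _
    have hY1 : 1 ≤ Y := hK1.trans hKY
    have hball : {v : Fin 3 → ℤ | v ≠ 0 ∧ (ht v : ℝ) ≤ Y ^ K}.Finite := by
      refine (fin_ball ⌊Y ^ K⌋₊).subset fun v hv => ?_
      exact Nat.le_floor hv.2
    have hall : ∀ Z : ℝ, Y ≤ Z → ∃ v : Fin 3 → ℤ, v ≠ 0 ∧ (ht v : ℝ) ≤ Y ^ K ∧
        |L t v| ≤ Z ^ (-γ) := fun Z hZ => hK t Y Z hKY hZ fun X hX => by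
      obtain ⟨v, hv0, hv1, hv2⟩ := hcon X (hXY.trans hX.1)
      exact ⟨v, hv0, hv1, hv2⟩
    have hne : {v : Fin 3 → ℤ | v ≠ 0 ∧ (ht v : ℝ) ≤ Y ^ K}.Nonempty := by
      obtain ⟨v, hv0, hv1, _⟩ := hall Y le_rfl
      exact ⟨v, hv0, hv1⟩
    obtain ⟨b, hb, hmin⟩ := Set.exists_min_image _ (fun v => |L t v|) hball hne
    have hb0 : 0 < |L t b| := by
      rw [abs_pos]
      intro h0
      apply hb.1
      rw [← hL] at h0
      exact funext (hli b h0)
    have hlim : Filter.Tendsto (fun Z : ℝ => Z ^ (-γ)) Filter.atTop (nhds 0) :=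
      tendsto_rpow_neg_atTop (by linarith)
    obtain ⟨Z, hZ1, hZ2⟩ := ((hlim.eventually (gt_mem_nhds hb0)).and
      (Filter.eventually_ge_atTop Y)).exists
    obtain ⟨v, hv0, hv1, hv2⟩ := hall Z hZ2
    have h3 : |L t b| ≤ |L t v| := hmin v ⟨hv0, hv1⟩
    linarith
  · intro h v hv
    by_contra hne
    have hv0 : v ≠ 0 := by
      intro h0
      apply hne
      intro i
      rw [h0]; rfl
    obtain ⟨X, hX1, hX2⟩ := h (max 1 (ht v))
    have h1 := hX2 v hv0 ((le_max_right _ _).trans hX1)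
    rw [← hL, hv, abs_zero] at h1
    have h2 : 1 ≤ X := (le_max_left _ _).trans hX1
    have h3 : 0 < X ^ (-γ) := rpow_pos_of_pos (by linarith) _
    linarith

/-- The primitive integer vectors with positive last coordinate and height at most `X` which are
near relations of exponent `w`. -/
def Near (t w X : ℝ) : Set (Fin 3 → ℤ) :=
  {v | 0 < v 2 ∧ Int.gcd (v 0) (Int.gcd (v 1) (v 2)) = 1 ∧ (ht v : ℝ) ≤ X ∧
    |L t v| ≤ (ht v : ℝ) ^ (-w)}

open Pool.Agent.TH647.NR Pool.Agent.W472.AC in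
theorem count (w ρ : ℝ) (hw : 3 < w) (hρ : 1 < ρ) (hρw : ρ < (w - 1) / 2) :
    ∃ C : ℝ, ∀ t X : ℝ, 3 ≤ X →
      (Near t w X).Finite ∧ ((Near t w X).ncard : ℝ) ≤ log (log X) / log ρ + C := by
  obtain ⟨η, hη0, hη1, hη2⟩ : ∃ η : ℝ, 0 < η ∧ 2 * (1 + η) + 1 < w ∧
      ρ < (w - (1 + η)) / ((1 + η) + 1) := by
    have h1 : 0 < w - 1 - 2 * ρ := by linarith
    refine ⟨min ((w - 3) / 4) ((w - 1 - 2 * ρ) / (2 * (1 + ρ))), ?_, ?_, ?_⟩
    · exact lt_min (by linarith) (div_pos h1 (by linarith))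
    · have := min_le_left ((w - 3) / 4) ((w - 1 - 2 * ρ) / (2 * (1 + ρ)))
      linarith
    · have h2 := min_le_right ((w - 3) / 4) ((w - 1 - 2 * ρ) / (2 * (1 + ρ)))
      have h0 : 0 < min ((w - 3) / 4) ((w - 1 - 2 * ρ) / (2 * (1 + ρ))) :=
        lt_min (by linarith) (div_pos h1 (by linarith))
      obtain ⟨η, hη⟩ : ∃ η, η = min ((w - 3) / 4) ((w - 1 - 2 * ρ) / (2 * (1 + ρ))) := ⟨_, rfl⟩
      rw [← hη] at h0 h2 ⊢
      rw [le_div_iff₀ (by linarith)] at h2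
      rw [lt_div_iff₀ (by linarith)]
      nlinarith
  obtain ⟨c, hc, hm⟩ := e_meas 1 ![0, 1] (by
    intro i j hij
    fin_cases i <;> fin_cases j <;> simp_all) rfl (by intro i; fin_cases i <;> simp) η hη0
  have e0 : (fun i : Fin 2 => exp (((![0, 1] : Fin 2 → ℤ) i : ℤ) : ℝ)) = ![1, exp 1] := by
    funext i
    fin_cases i <;> simp
  rw [e0] at hm
  push_cast at hm
  obtain ⟨C, hC⟩ := Pool.Agent.TH550.NRZ.sparse_unif (m := 1) ![1, exp 1] (1 + η) c
    (by linarith) hc hm w ρ hη1 hρ hη2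
  refine ⟨C, fun t X hX => ?_⟩
  have hfin : (Near t w X).Finite := (fin_ball ⌊X⌋₊).subset fun v hv => Nat.le_floor hv.2.2.1
  refine ⟨hfin, ?_⟩
  obtain ⟨h1, h2⟩ := hC t X hX
  refine le_trans ?_ h2
  let φ : (Fin 3 → ℤ) → (Fin 2 → ℤ) × ℤ := fun v => (![v 0, v 1], v 2)
  have hφ : Function.Injective φ := by
    intro a b h
    have h3 := congrArg Prod.fst h
    have h4 := congrArg Prod.snd h
    have h5 := congrFun h3 0
    have h6 := congrFun h3 1
    simp only [φ, Matrix.cons_val_zero, Matrix.cons_val_one] at h4 h5 h6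
    funext i
    fin_cases i
    · exact h5
    · exact h6
    · exact h4
  have hnorm : ∀ v, ‖φ v‖ = ht v := by
    intro v
    have h3 : ‖(![v 0, v 1] : Fin 2 → ℤ)‖ = max |(v 0 : ℝ)| |(v 1 : ℝ)| := by
      apply le_antisymm
      · refine (pi_norm_le_iff_of_nonneg (by positivity)).2 fun i => ?_
        fin_cases i
        · exact le_max_left _ _
        · exact le_max_right _ _
      · refine max_le ?_ ?_
        · exact norm_le_pi_norm (![v 0, v 1] : Fin 2 → ℤ) 0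
        · exact norm_le_pi_norm (![v 0, v 1] : Fin 2 → ℤ) 1
    have h4 : ∀ x : ℤ, |(x : ℝ)| = (x.natAbs : ℝ) := fun x => by rw [Nat.cast_natAbs]; simp
    show ‖(![v 0, v 1], v 2)‖ = _
    rw [Prod.norm_def, h3]
    show max (max |(v 0 : ℝ)| |(v 1 : ℝ)|) ‖v 2‖ = _
    rw [Int.norm_eq_abs, max_assoc, h4, h4, h4]
    unfold ht
    push_cast
    rfl
  have h3 := Set.ncard_le_ncard_of_injOn (s := Near t w X) φ (fun v hv => ?_) (hφ.injOn) h1
  · exact_mod_cast h3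
  · refine ⟨⟨hv.1, ?_, ?_⟩, ?_⟩
    · intro d hd hd2
      have g0 : d ∣ v 0 := hd 0
      have g1 : d ∣ v 1 := hd 1
      have g2 : d ∣ ((Int.gcd (v 1) (v 2) : ℕ) : ℤ) := Int.dvd_coe_gcd g1 hd2
      have g3 := Int.dvd_coe_gcd g0 g2
      rw [hv.2.1] at g3
      exact isUnit_of_dvd_one (by simpa using g3)
    · rw [hnorm]
      have e1 : lin ![1, exp 1] t (φ v) = L t v := by
        unfold lin L
        rw [Fin.sum_univ_two]
        simp [φ]
      rw [e1]
      exact hv.2.2.2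
    · show ‖φ v‖ ≤ X
      rw [hnorm]
      exact hv.2.2.1

end Pool.Agent.Q252.EN
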