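import Pool.Agent.Q252.EN.Core

/-!
# Near relations at all scales of a window
-/

set_option autoImplicit false

namespace Pool.Agent.Q252.EN

open Real

/-- `b` is a minimal point at level `N` -/
def Mn (t : ℝ) (N : ℕ) (b : Fin 3 → ℤ) : Prop :=
  b ≠ 0 ∧ ht b ≤ N ∧ ∀ w : Fin 3 → ℤ, w ≠ 0 → ht w ≤ N → |L t b| ≤ |L t w|

lemma fin_ball (N : ℕ) : {v : Fin 3 → ℤ | ht v ≤ N}.Finite := by
  refine (Set.Finite.pi' (fun _ : Fin 3 => Set.finite_Icc (-(N : ℤ)) N)).subset fun v hv i => ?_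
  have h : (v i).natAbs ≤ N := by
    have h1 : (v i).natAbs ≤ ht v := by
      unfold ht
      fin_cases i <;> simp
    exact h1.trans hv
  rw [Set.mem_Icc]
  omega

lemma exists_Mn (t : ℝ) {N : ℕ} (hN : 1 ≤ N) : ∃ b, Mn t N b := by
  have hf : {v : Fin 3 → ℤ | v ≠ 0 ∧ ht v ≤ N}.Finite :=
    (fin_ball N).subset fun v hv => hv.2
  have hne : {v : Fin 3 → ℤ | v ≠ 0 ∧ ht v ≤ N}.Nonempty := by
    refine ⟨![1, 0, 0], ?_, ?_⟩
    · intro h
      have := congrFun h 0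
      simp at this
    · simpa [ht] using hN
  obtain ⟨b, hb, hmin⟩ := Set.exists_min_image _ (fun v => |L t v|) hf hne
  exact ⟨b, hb.1, hb.2, fun w hw hwN => hmin w ⟨hw, hwN⟩⟩

/-- consecutive minimal points -/
lemma consec (γ δ : ℝ) (hγ : 2 < γ) (hδ : 0 < δ) (hγδ : δ < γ - 2) :
    ∃ C1 : ℝ, 1 ≤ C1 ∧ ∀ (t : ℝ) (a b : Fin 3 → ℤ), nr a b ≠ 0 → ht a ≤ ht b →
      |L t b| ≤ |L t a| → |L t a| ≤ 2 ^ γ * (ht b : ℝ) ^ (-γ) →
      (ht b : ℝ) ^ (γ - 2 - δ) ≤ C1 * ht a := by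
  refine ⟨8000 * 2 ^ γ * (2 + 2 / δ), ?_, fun t a b hn hab hL hLa => ?_⟩
  · have h1 : (1 : ℝ) ≤ 2 ^ γ := one_le_rpow (by norm_num) (by linarith)
    have h2 : 0 < 2 / δ := by positivity
    nlinarith
  obtain ⟨ha0, hb0⟩ := nr_ne hn
  have ha1 : (1 : ℝ) ≤ ht a := by exact_mod_cast ht_pos ha0
  have hb1 : (1 : ℝ) ≤ ht b := by exact_mod_cast ht_pos hb0
  have hab' : (ht a : ℝ) ≤ ht b := by exact_mod_cast hab
  obtain ⟨x, hx⟩ : ∃ x : ℝ, x = ht a := ⟨_, rfl⟩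
  obtain ⟨y, hy⟩ : ∃ y : ℝ, y = ht b := ⟨_, rfl⟩
  have hc := core t a b hn
  rw [← hx, ← hy] at hc
  rw [← hx] at ha1 hab' ⊢
  rw [← hy] at hb1 hab' hLa ⊢
  have hy0 : 0 < y := by linarith
  -- the logarithm
  have hlog : 1 + log (2 * (x * y)) ≤ (2 + 2 / δ) * y ^ δ := by
    have h1 : log (2 * (x * y)) ≤ log (2 * (y * y)) :=
      log_le_log (by positivity) (by nlinarith)
    have e0 : log (2 * (y * y)) = log 2 + (log y + log y) := by
      rw [log_mul (by norm_num) (by positivity), log_mul hy0.ne' hy0.ne']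
    rw [e0] at h1
    have h2 := log_two_lt_d9
    have h3 := log_le_rpow_div hy0.le hδ
    have h4 : 1 ≤ y ^ δ := one_le_rpow hb1 hδ.le
    have e : (2 + 2 / δ) * y ^ δ = 2 * y ^ δ + 2 * (y ^ δ / δ) := by ring
    rw [e]
    linarith
  have hlog0 : 0 ≤ log (2 * (x * y)) := log_nonneg (by nlinarith)
  have h1 : y * |L t a| + x * |L t b| ≤ 2 * (y * (2 ^ γ * y ^ (-γ))) := by
    have h2 : x * |L t b| ≤ y * |L t a| :=
      mul_le_mul hab' hL (abs_nonneg _) (by linarith)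
    have h3 : y * |L t a| ≤ y * (2 ^ γ * y ^ (-γ)) := mul_le_mul_of_nonneg_left hLa (by linarith)
    linarith
  have h2 := hc.trans h1
  rw [div_le_iff₀ (by positivity)] at h2
  have h3 : 2 * (y * (2 ^ γ * y ^ (-γ))) * (4000 * (x * y) * (1 + log (2 * (x * y)))) ≤
      2 * (y * (2 ^ γ * y ^ (-γ))) * (4000 * (x * y) * ((2 + 2 / δ) * y ^ δ)) := by
    refine mul_le_mul_of_nonneg_left ?_ (by positivity)
    exact mul_le_mul_of_nonneg_left hlog (by positivity)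
  have h4 := h2.trans h3
  have e1 : 2 * (y * (2 ^ γ * y ^ (-γ))) * (4000 * (x * y) * ((2 + 2 / δ) * y ^ δ)) =
      (8000 * 2 ^ γ * (2 + 2 / δ)) * x * (y ^ (-(γ - 2 - δ))) := by
    have e2 : y ^ (-(γ - 2 - δ)) = y ^ (-γ) * y ^ δ * (y * y) := by
      rw [show -(γ - 2 - δ) = -γ + δ + (1 + 1) by ring, rpow_add hy0, rpow_add hy0,
        rpow_add hy0, rpow_one]
    rw [e2]
    ring
  rw [e1, rpow_neg hy0.le] at h4
  have h5 : 0 < y ^ (γ - 2 - δ) := rpow_pos_of_pos hy0 _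
  calc y ^ (γ - 2 - δ) = 1 * y ^ (γ - 2 - δ) := (one_mul _).symm
    _ ≤ (8000 * 2 ^ γ * (2 + 2 / δ)) * x * (y ^ (γ - 2 - δ))⁻¹ * y ^ (γ - 2 - δ) :=
      mul_le_mul_of_nonneg_right h4 h5.le
    _ = _ := by field_simp

/-- the golden ratio enters -/
lemma exists_delta (γ : ℝ) (hγ : (3 + √5) / 2 < γ) :
    ∃ δ : ℝ, 0 < δ ∧ δ < γ - 2 ∧ 1 < (γ - 1) * (γ - 2 - δ) := by
  have h5 : √5 * √5 = 5 := mul_self_sqrt (by norm_num)
  have h50 : 0 ≤ √5 := sqrt_nonneg 5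
  have h51 : 2 < √5 := by nlinarith
  have h1 : 1 < (γ - 1) * (γ - 2) := by nlinarith
  have hg : 0 < γ - 1 := by linarith
  obtain ⟨ε, hε⟩ : ∃ ε, ε = ((γ - 1) * (γ - 2) - 1) / (2 * (γ - 1)) := ⟨_, rfl⟩
  have hε0 : 0 < ε := by
    rw [hε]
    exact div_pos (by linarith) (by linarith)
  have hε1 : (γ - 1) * ε = ((γ - 1) * (γ - 2) - 1) / 2 := by
    rw [hε]
    field_simp
  refine ⟨ε, hε0, ?_, ?_⟩
  · have : (γ - 1) * ε < (γ - 1) * (γ - 2) := by rw [hε1]; linarith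
    exact lt_of_mul_lt_mul_left this hg.le
  · rw [mul_sub, hε1]
    linarith

/-- three consecutive minimal points of large height are linearly dependent -/
lemma three (γ : ℝ) (hγ : (3 + √5) / 2 < γ) :
    ∃ Y0 : ℝ, ∀ (t : ℝ) (a b c : Fin 3 → ℤ), Y0 < ht b → ht a < ht b → ht b < ht c →
      |L t b| < |L t a| → |L t c| < |L t b| →
      |L t a| ≤ 2 ^ γ * (ht b : ℝ) ^ (-γ) → |L t b| ≤ 2 ^ γ * (ht c : ℝ) ^ (-γ) →
      dt a b c = 0 := by
  obtain ⟨δ, hδ0, hδ1, hδ2⟩ := exists_delta γ hγ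
  have h5 : √5 * √5 = 5 := mul_self_sqrt (by norm_num)
  have h50 : 0 ≤ √5 := sqrt_nonneg 5
  have h51 : 2 < √5 := by nlinarith
  have hγ2 : 2 < γ := by linarith
  obtain ⟨C1, hC1, hcon⟩ := consec γ δ hγ2 hδ0 hδ1
  obtain ⟨β, hβ⟩ : ∃ β, β = γ - 2 - δ := ⟨_, rfl⟩
  have hβ0 : 0 < β := by linarith
  obtain ⟨κ, hκ⟩ : ∃ κ, κ = (γ - 1) * β - 1 := ⟨_, rfl⟩
  have hκ0 : 0 < κ := by rw [hκ, hβ]; linarith
  obtain ⟨C2, hC2⟩ : ∃ C2 : ℝ, C2 = (6 * 2 ^ γ) ^ β * C1 := ⟨_, rfl⟩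
  have hC20 : 0 < C2 := by rw [hC2]; positivity
  refine ⟨max 1 (C2 ^ (1 / κ)), fun t a b c hY hab hbc hL1 hL2 h1 h2 => ?_⟩
  by_contra hd
  have hb1 : 1 < (ht b : ℝ) := (le_max_left _ _).trans_lt hY
  have hbY : C2 ^ (1 / κ) < (ht b : ℝ) := (le_max_right _ _).trans_lt hY
  have hbc' : (ht b : ℝ) < ht c := by exact_mod_cast hbc
  have e1 : (1 : ℝ) ≤ |(dt a b c : ℝ)| := by exact_mod_cast Int.one_le_abs hd
  have e2 := dt_le t a b c hab.le hbc.le hL1.le hL2.le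
  have hnbc := nr_ne_of_lt t b c hbc hL2
  have e3 := hcon t b c hnbc hbc.le hL2.le h2
  rw [← hβ] at e3
  obtain ⟨y, hy⟩ : ∃ y : ℝ, y = ht b := ⟨_, rfl⟩
  obtain ⟨z, hz⟩ : ∃ z : ℝ, z = ht c := ⟨_, rfl⟩
  rw [← hy] at hb1 hbY hbc' e2 e3 h1
  rw [← hz] at hbc' e2 e3 h2
  have hy0 : 0 < y := by linarith
  have hz0 : 0 < z := by linarith
  -- `y ^ (γ - 1) ≤ 6 * 2 ^ γ * z`
  have e4 : y ^ (γ - 1) ≤ 6 * 2 ^ γ * z := by
    have g1 : 1 ≤ 6 * (2 ^ γ * y ^ (-γ) * (y * z)) := by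
      refine (e1.trans e2).trans ?_
      have := mul_le_mul_of_nonneg_right h1 (by positivity : 0 ≤ y * z)
      linarith
    have g2 : 6 * (2 ^ γ * y ^ (-γ) * (y * z)) = (6 * 2 ^ γ * z) * (y ^ (γ - 1))⁻¹ := by
      rw [← rpow_neg hy0.le, show -(γ - 1) = -γ + 1 by ring, rpow_add hy0, rpow_one]
      ring
    rw [g2] at g1
    have g3 : 0 < y ^ (γ - 1) := rpow_pos_of_pos hy0 _
    calc y ^ (γ - 1) = 1 * y ^ (γ - 1) := (one_mul _).symm
      _ ≤ (6 * 2 ^ γ * z) * (y ^ (γ - 1))⁻¹ * y ^ (γ - 1) :=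
        mul_le_mul_of_nonneg_right g1 g3.le
      _ = _ := by field_simp
  have e5 : (y ^ (γ - 1)) ^ β ≤ (6 * 2 ^ γ * z) ^ β :=
    rpow_le_rpow (by positivity) e4 hβ0.le
  rw [← rpow_mul hy0.le, mul_rpow (by positivity) hz0.le] at e5
  have e6 : y ^ ((γ - 1) * β) ≤ C2 * y := by
    rw [hC2]
    refine e5.trans ?_
    calc (6 * 2 ^ γ) ^ β * z ^ β ≤ (6 * 2 ^ γ) ^ β * (C1 * y) :=
          mul_le_mul_of_nonneg_left e3 (by positivity)
      _ = _ := by ring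
  have e7 : y ^ κ ≤ C2 := by
    have g1 : y ^ ((γ - 1) * β) = y ^ κ * y := by
      rw [show (γ - 1) * β = κ + 1 by rw [hκ]; ring, rpow_add hy0, rpow_one]
    rw [g1] at e6
    exact le_of_mul_le_mul_right e6 hy0
  have e8 : C2 < y ^ κ := by
    calc C2 = (C2 ^ (1 / κ)) ^ κ := by
          rw [← rpow_mul hC20.le, one_div, inv_mul_cancel₀ hκ0.ne', rpow_one]
      _ < y ^ κ := rpow_lt_rpow (by positivity) hbY hκ0
  linarith

/-- passing to the next minimal point -/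
lemma step_bound (γ : ℝ) (hγ : 0 < γ) (x : ℝ) (N : ℕ) (hN : 1 ≤ N) (h : x ≤ (N : ℝ) ^ (-γ)) :
    x ≤ 2 ^ γ * ((N + 1 : ℕ) : ℝ) ^ (-γ) := by
  refine h.trans ?_
  have hN' : (1 : ℝ) ≤ N := by exact_mod_cast hN
  push_cast
  rw [rpow_neg (by linarith), rpow_neg (by linarith), ← div_eq_mul_inv, inv_eq_one_div,
    div_le_div_iff₀ (by positivity) (by positivity), one_mul, ← mul_rpow (by norm_num)
    (by linarith)]
  exact rpow_le_rpow (by linarith) (by linarith) hγ.le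

/-- **Near relations at all scales of a window come from one vector.** -/
theorem window (γ : ℝ) (hγ : (3 + √5) / 2 < γ) :
    ∃ K : ℝ, 1 ≤ K ∧ ∀ t Y Z : ℝ, K ≤ Y → Y ≤ Z →
      (∀ X ∈ Set.Icc Y Z, ∃ v : Fin 3 → ℤ, v ≠ 0 ∧ (ht v : ℝ) ≤ X ∧ |L t v| ≤ X ^ (-γ)) →
      ∃ v : Fin 3 → ℤ, v ≠ 0 ∧ (ht v : ℝ) ≤ Y ^ K ∧ |L t v| ≤ Z ^ (-γ) := by
  obtain ⟨δ, hδ0, hδ1, hδ2⟩ := exists_delta γ hγ
  have h5 : √5 * √5 = 5 := mul_self_sqrt (by norm_num)
  have h50 : 0 ≤ √5 := sqrt_nonneg 5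
  have h51 : 2 < √5 := by nlinarith
  have hγ2 : 2 < γ := by linarith
  obtain ⟨C1, hC1, hcon⟩ := consec γ δ hγ2 hδ0 hδ1
  obtain ⟨Y0, hthree⟩ := three γ hγ
  obtain ⟨β, hβ⟩ : ∃ β, β = γ - 2 - δ := ⟨_, rfl⟩
  have hβ0 : 0 < β := by linarith
  rw [← hβ] at hcon
  -- the final bound for the height
  obtain ⟨A, hA⟩ : ∃ A : ℝ, A = (64000 * 2 ^ γ * (2 * (C1 * 2) ^ (1 / β)) ^ 3) ^ (1 / (γ - 1)) :=
    ⟨_, rfl⟩
  have hA0 : 0 ≤ A := by rw [hA]; positivity
  obtain ⟨κ, hκ⟩ : ∃ κ : ℝ, κ = (1 + 1 / β) * 3 * (1 / (γ - 1)) := ⟨_, rfl⟩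
  have hκ0 : 0 ≤ κ := by
    rw [hκ]
    have : 0 < γ - 1 := by linarith
    positivity
  refine ⟨max (max 2 Y0) (max A (κ + 1)) , le_trans (by norm_num)
    ((le_max_left 2 Y0).trans (le_max_left _ _)), fun t Y Z hKY hYZ hyp => ?_⟩
  obtain ⟨K, hK⟩ : ∃ K, K = max (max 2 Y0) (max A (κ + 1)) := ⟨_, rfl⟩
  rw [← hK] at hKY ⊢
  have hK2 : 2 ≤ K := by rw [hK]; exact (le_max_left 2 Y0).trans (le_max_left _ _)
  have hKY0 : Y0 ≤ K := by rw [hK]; exact (le_max_right 2 Y0).trans (le_max_left _ _)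
  have hKA : A ≤ K := by rw [hK]; exact (le_max_left _ _).trans (le_max_right _ _)
  have hKκ : κ + 1 ≤ K := by rw [hK]; exact (le_max_right _ _).trans (le_max_right _ _)
  have hY2 : 2 ≤ Y := hK2.trans hKY
  have hYK : Y + 1 ≤ Y ^ K := by
    calc Y + 1 ≤ Y ^ (2 : ℝ) := by rw [rpow_two]; nlinarith
      _ ≤ Y ^ K := rpow_le_rpow_of_exponent_le (by linarith) hK2
  obtain ⟨M, hM⟩ : ∃ M : ℕ, M = ⌈Y⌉₊ := ⟨_, rfl⟩
  have hMY : Y ≤ M := by rw [hM]; exact Nat.le_ceil Y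
  have hMY1 : (M : ℝ) < Y + 1 := by rw [hM]; exact Nat.ceil_lt_add_one (by linarith)
  have hM2 : (2 : ℝ) ≤ M := hY2.trans hMY
  have hM1 : 1 ≤ M := by
    have : (1 : ℝ) ≤ M := by linarith
    exact_mod_cast this
  obtain ⟨E, hE⟩ : ∃ E : ℕ, E = ⌊Z⌋₊ := ⟨_, rfl⟩
  have hEZ : (E : ℝ) ≤ Z := by rw [hE]; exact Nat.floor_le (by linarith)
  have hEZ1 : Z < E + 1 := by rw [hE]; exact Nat.lt_floor_add_one Z
  -- short windows
  rcases Nat.lt_or_ge E M with hEM | hEM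
  · obtain ⟨v, hv0, hv1, hv2⟩ := hyp Z ⟨hYZ, le_refl _⟩
    refine ⟨v, hv0, hv1.trans (le_trans ?_ hYK), hv2⟩
    have : ((E + 1 : ℕ) : ℝ) ≤ M := by exact_mod_cast hEM
    push_cast at this
    linarith
  -- minimal points are near relations
  have hmin : ∀ N : ℕ, M ≤ N → N ≤ E → ∀ b, Mn t N b → |L t b| ≤ (N : ℝ) ^ (-γ) := by
    intro N h1 h2 b hb
    have h1' : (M : ℝ) ≤ N := by exact_mod_cast h1
    have h2' : (N : ℝ) ≤ E := by exact_mod_cast h2
    obtain ⟨v, hv0, hv1, hv2⟩ := hyp N ⟨by linarith, by linarith⟩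
    exact (hb.2.2 v hv0 (by exact_mod_cast hv1)).trans hv2
  obtain ⟨P, hP⟩ : ∃ P : ℝ, P = M * (C1 * M) ^ (1 / β) := ⟨_, rfl⟩
  have hP1 : 1 ≤ P := by
    rw [hP]
    have : (1 : ℝ) ≤ (C1 * M) ^ (1 / β) := one_le_rpow (by nlinarith) (by positivity)
    nlinarith
  obtain ⟨σ, hσ⟩ : ∃ σ : ℝ, σ = 1 / (8000 * P ^ 3) := ⟨_, rfl⟩
  have hσ0 : 0 < σ := by rw [hσ]; positivity
  -- the induction
  have key : ∀ N : ℕ, M ≤ N → N ≤ E → (∃ b, Mn t N b ∧ ht b ≤ M) ∨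
      (∃ a b, Mn t N b ∧ M < ht b ∧ ht a < ht b ∧ |L t b| < |L t a| ∧
        |L t a| ≤ 2 ^ γ * (ht b : ℝ) ^ (-γ) ∧ ∀ n, n ≠ 0 → Par n (nr a b) → σ ≤ S t n) := by
    intro N hMN
    induction N, hMN using Nat.le_induction with
    | base =>
      intro _
      obtain ⟨b, hb⟩ := exists_Mn t hM1
      exact Or.inl ⟨b, hb, hb.2.1⟩
    | succ N hMN ih =>
      intro hNE
      have hN1 : 1 ≤ N := hM1.trans hMN
      rcases ih (by omega) with ⟨b, hb, hbM⟩ | ⟨a, b, hb, hMb, hab, hL, hLa, hpar⟩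
      · by_cases hj : ∀ w : Fin 3 → ℤ, w ≠ 0 → ht w ≤ N + 1 → |L t b| ≤ |L t w|
        · exact Or.inl ⟨b, ⟨hb.1, by have := hb.2.1; omega, hj⟩, hbM⟩
        · push Not at hj
          obtain ⟨w, hw0, hw1, hw2⟩ := hj
          obtain ⟨c, hc⟩ := exists_Mn t (N := N + 1) (by omega)
          have hcb : |L t c| < |L t b| := (hc.2.2 w hw0 hw1).trans_lt hw2
          have hcN : ht c = N + 1 := by
            by_contra h
            have h1 := hc.2.1
            have h2 := hb.2.2 c hc.1 (by omega)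
            linarith
          have hbc : ht b < ht c := by have := hb.2.1; omega
          have hLb : |L t b| ≤ 2 ^ γ * (ht c : ℝ) ^ (-γ) := by
            rw [hcN]
            exact step_bound γ (by linarith) _ N hN1 (hmin N hMN (by omega) b hb)
          refine Or.inr ⟨b, c, hc, by omega, hbc, hcb, hLb, fun n hn hpar => ?_⟩
          have hne := nr_ne_of_lt t b c hbc hcb
          have h1 := hcon t b c hne hbc.le hcb.le hLb
          have hbM' : (ht b : ℝ) ≤ M := by exact_mod_cast hbM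
          have hc0 : (0 : ℝ) < ht c := by
            have := ht_pos hc.1
            exact_mod_cast this
          have h2 : (ht c : ℝ) ≤ (C1 * M) ^ (1 / β) := by
            calc (ht c : ℝ) = ((ht c : ℝ) ^ β) ^ (1 / β) := by
                  rw [← rpow_mul hc0.le, mul_one_div_cancel hβ0.ne', rpow_one]
              _ ≤ (C1 * M) ^ (1 / β) := by
                  refine rpow_le_rpow (by positivity) (h1.trans ?_) (by positivity)
                  exact mul_le_mul_of_nonneg_left hbM' (by linarith)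
          have h3 : (ht b * ht c : ℝ) ≤ P := by
            rw [hP]
            exact mul_le_mul hbM' h2 hc0.le (by linarith)
          have h4 : ∀ j, |((nr b c j : ℤ) : ℝ)| ≤ 2 * P := fun j =>
            (nr_le b c j).trans (by linarith)
          have h5 := S_lower t (nr b c) hne (2 * P) (by linarith) h4
          have h6 := S_par t hpar hn hne (2 * P) h4
          have h7 : 1 + log (2 * P) ≤ 2 * P := by
            have := log_le_sub_one_of_pos (x := 2 * P) (by linarith)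
            linarith
          have h8 : 0 ≤ log (2 * P) := log_nonneg (by linarith)
          have h9 : 1 / (1000 * (2 * P) * (2 * P)) ≤ 1 / (1000 * (2 * P) * (1 + log (2 * P))) := by
            refine one_div_le_one_div_of_le (by positivity) ?_
            exact mul_le_mul_of_nonneg_left h7 (by positivity)
          have h10 : 1 / (1000 * (2 * P) * (2 * P)) ≤ 2 * P * S t n := h9.trans (h5.trans h6)
          have h11 : 2 * P * σ = 1 / (1000 * (2 * P) * (2 * P)) := by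
            rw [hσ]
            field_simp
            norm_num
          rw [← h11] at h10
          exact le_of_mul_le_mul_left h10 (by linarith)
      · by_cases hj : ∀ w : Fin 3 → ℤ, w ≠ 0 → ht w ≤ N + 1 → |L t b| ≤ |L t w|
        · exact Or.inr ⟨a, b, ⟨hb.1, by have := hb.2.1; omega, hj⟩, hMb, hab, hL, hLa, hpar⟩
        · push Not at hj
          obtain ⟨w, hw0, hw1, hw2⟩ := hj
          obtain ⟨c, hc⟩ := exists_Mn t (N := N + 1) (by omega)
          have hcb : |L t c| < |L t b| := (hc.2.2 w hw0 hw1).trans_lt hw2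
          have hcN : ht c = N + 1 := by
            by_contra h
            have h1 := hc.2.1
            have h2 := hb.2.2 c hc.1 (by omega)
            linarith
          have hbc : ht b < ht c := by have := hb.2.1; omega
          have hLb : |L t b| ≤ 2 ^ γ * (ht c : ℝ) ^ (-γ) := by
            rw [hcN]
            exact step_bound γ (by linarith) _ N hN1 (hmin N hMN (by omega) b hb)
          have hMb' : (M : ℝ) < ht b := by exact_mod_cast hMb
          have hdt := hthree t a b c (by linarith) hab hbc hL hcb hLa hLb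
          refine Or.inr ⟨b, c, hc, by omega, hbc, hcb, hLb, fun n hn hp => ?_⟩
          exact hpar n hn (hp.trans (par_of_dt hdt) (nr_ne_of_lt t b c hbc hcb))
  -- the end
  obtain ⟨v, hv0, hv1, hv2⟩ := hyp Z ⟨hYZ, le_refl _⟩
  have hvE : ht v ≤ E := by
    rw [hE]
    exact Nat.le_floor hv1
  rcases key E hEM le_rfl with ⟨b, hb, hbM⟩ | ⟨a, b, hb, hMb, hab, hL, hLa, hpar⟩
  · refine ⟨b, hb.1, ?_, (hb.2.2 v hv0 hvE).trans hv2⟩
    have : (ht b : ℝ) ≤ M := by exact_mod_cast hbM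
    linarith
  · refine ⟨b, hb.1, ?_, (hb.2.2 v hv0 hvE).trans hv2⟩
    have hne := nr_ne_of_lt t a b hab hL
    have h1 := hpar (nr a b) hne (Par.refl _)
    have h2 := S_nr t a b
    have hab' : (ht a : ℝ) < ht b := by exact_mod_cast hab
    have hb1 : (1 : ℝ) ≤ ht b := by exact_mod_cast ht_pos hb.1
    obtain ⟨y, hy⟩ : ∃ y : ℝ, y = ht b := ⟨_, rfl⟩
    rw [← hy] at h2 hab' hb1 hLa ⊢
    have hy0 : 0 < y := by linarith
    have h3 : (ht a : ℝ) * |L t b| ≤ y * |L t a| :=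
      mul_le_mul hab'.le hL.le (abs_nonneg _) hy0.le
    have h4 : y * |L t a| ≤ 2 ^ γ * y ^ (-(γ - 1)) := by
      calc y * |L t a| ≤ y * (2 ^ γ * y ^ (-γ)) := mul_le_mul_of_nonneg_left hLa hy0.le
        _ = 2 ^ γ * y ^ (-(γ - 1)) := by
          rw [show -(γ - 1) = -γ + 1 by ring, rpow_add hy0, rpow_one]
          ring
    have h5 : σ ≤ 4 * 2 ^ γ * y ^ (-(γ - 1)) := by linarith
    rw [hσ, div_le_iff₀ (by positivity), rpow_neg hy0.le] at h5
    have hg : 0 < y ^ (γ - 1) := rpow_pos_of_pos hy0 _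
    have h6 : y ^ (γ - 1) ≤ 32000 * 2 ^ γ * P ^ 3 := by
      calc y ^ (γ - 1) = 1 * y ^ (γ - 1) := (one_mul _).symm
        _ ≤ 4 * 2 ^ γ * (y ^ (γ - 1))⁻¹ * (8000 * P ^ 3) * y ^ (γ - 1) :=
          mul_le_mul_of_nonneg_right h5 hg.le
        _ = _ := by field_simp; ring
    have hM2Y : (M : ℝ) ≤ 2 * Y := by linarith
    have h7 : P ≤ 2 * (C1 * 2) ^ (1 / β) * Y ^ (1 + 1 / β) := by
      rw [hP]
      calc (M : ℝ) * (C1 * M) ^ (1 / β) ≤ (2 * Y) * (C1 * (2 * Y)) ^ (1 / β) := by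
            refine mul_le_mul hM2Y ?_ (by positivity) (by linarith)
            refine rpow_le_rpow (by positivity) ?_ (by positivity)
            exact mul_le_mul_of_nonneg_left hM2Y (by linarith)
        _ = _ := by
            rw [show C1 * (2 * Y) = (C1 * 2) * Y by ring, mul_rpow (by positivity) (by linarith),
              rpow_add (by linarith), rpow_one]
            ring
    have h8 : y ^ (γ - 1) ≤ (64000 * 2 ^ γ * (2 * (C1 * 2) ^ (1 / β)) ^ 3) *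
        Y ^ ((1 + 1 / β) * 3) := by
      refine h6.trans ?_
      have h9 : P ^ 3 ≤ (2 * (C1 * 2) ^ (1 / β)) ^ 3 * Y ^ ((1 + 1 / β) * 3) := by
        calc P ^ 3 ≤ (2 * (C1 * 2) ^ (1 / β) * Y ^ (1 + 1 / β)) ^ 3 :=
              pow_le_pow_left₀ (by linarith) h7 3
          _ = _ := by
              rw [mul_pow, ← rpow_natCast (Y ^ (1 + 1 / β)) 3, ← rpow_mul (by linarith)]
              norm_num
      have h10 : 0 ≤ (2 * (C1 * 2) ^ (1 / β)) ^ 3 * Y ^ ((1 + 1 / β) * 3) := by positivity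
      calc 32000 * 2 ^ γ * P ^ 3 ≤ 32000 * 2 ^ γ *
            ((2 * (C1 * 2) ^ (1 / β)) ^ 3 * Y ^ ((1 + 1 / β) * 3)) :=
            mul_le_mul_of_nonneg_left h9 (by positivity)
        _ ≤ 64000 * 2 ^ γ * ((2 * (C1 * 2) ^ (1 / β)) ^ 3 * Y ^ ((1 + 1 / β) * 3)) := by
            refine mul_le_mul_of_nonneg_right ?_ h10
            have : (0 : ℝ) < 2 ^ γ := by positivity
            linarith
        _ = _ := by ring
    have hγ1 : 0 < γ - 1 := by linarith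
    have h11 : y ≤ A * Y ^ κ := by
      calc y = (y ^ (γ - 1)) ^ (1 / (γ - 1)) := by
            rw [← rpow_mul hy0.le, mul_one_div_cancel hγ1.ne', rpow_one]
        _ ≤ ((64000 * 2 ^ γ * (2 * (C1 * 2) ^ (1 / β)) ^ 3) *
            Y ^ ((1 + 1 / β) * 3)) ^ (1 / (γ - 1)) :=
            rpow_le_rpow (by positivity) h8 (by positivity)
        _ = A * Y ^ κ := by
            rw [mul_rpow (by positivity) (by positivity), ← rpow_mul (by linarith), hA, hκ]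
    calc y ≤ A * Y ^ κ := h11
      _ ≤ Y * Y ^ κ := mul_le_mul_of_nonneg_right (hKA.trans hKY) (by positivity)
      _ = Y ^ (κ + 1) := by rw [rpow_add (by linarith), rpow_one]; ring
      _ ≤ Y ^ K := rpow_le_rpow_of_exponent_le (by linarith) hKκ

end Pool.Agent.Q252.EN
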